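import Pool.Agent.J6H54.CG.Stm

/-!
# Module CG-17: the lower bound for `F_m`
-/

set_option autoImplicit false

open Finset Pool.Agent.J6H54.CG

namespace Pool.Agent.J6H83.CG17

theorem pow_mod_period {k m : ℕ} (hk : 2 ≤ k) (a r : ℕ) :
    k ^ a * r ≡ k ^ (a % m) * r [MOD (k ^ m - 1)] := by
  apply Nat.ModEq.mul_right
  have h1 : k ^ m ≡ 1 [MOD (k ^ m - 1)] := by
    have h2 : 1 ≤ k ^ m := Nat.one_le_pow _ _ (by omega)
    exact ((Nat.modEq_iff_dvd' h2).2 dvd_rfl).symm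
  calc k ^ a = (k ^ m) ^ (a / m) * k ^ (a % m) := by
        rw [← pow_mul, ← pow_add, Nat.div_add_mod]
    _ ≡ 1 ^ (a / m) * k ^ (a % m) [MOD (k ^ m - 1)] := (h1.pow _).mul_right _
    _ = k ^ (a % m) := by rw [one_pow, one_mul]

theorem exists_rep {k m : ℕ} (hk : 2 ≤ k) (hm : 1 ≤ m) {r : ℕ} (hr : r ∈ range (k ^ m - 1)) :
    ∃ s ∈ Rep k m, ∃ j ∈ range m, (k ^ j * s) % (k ^ m - 1) = r := by
  rw [Finset.mem_range] at hr
  have hM : 0 < k ^ m - 1 := by omega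
  obtain ⟨j0, hj0, hmin⟩ := Finset.exists_min_image (range m)
    (fun j => (k ^ j * r) % (k ^ m - 1)) ⟨0, Finset.mem_range.2 hm⟩
  rw [Finset.mem_range] at hj0
  have key : ∀ j : ℕ, (k ^ j * ((k ^ j0 * r) % (k ^ m - 1))) % (k ^ m - 1) =
      (k ^ ((j + j0) % m) * r) % (k ^ m - 1) := by
    intro j
    have h1 : k ^ j * ((k ^ j0 * r) % (k ^ m - 1)) ≡ k ^ j * (k ^ j0 * r) [MOD (k ^ m - 1)] :=
      (Nat.mod_modEq _ _).mul_left _
    have h2 : k ^ j * (k ^ j0 * r) = k ^ (j + j0) * r := by rw [pow_add, mul_assoc]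
    rw [h2] at h1
    exact h1.trans (pow_mod_period hk _ _)
  refine ⟨(k ^ j0 * r) % (k ^ m - 1), ?_, (m - j0) % m, ?_, ?_⟩
  · unfold Pool.Agent.J6H54.CG.Rep
    rw [Finset.mem_filter, Finset.mem_range]
    refine ⟨Nat.mod_lt _ hM, fun j _ => ?_⟩
    rw [key]
    exact hmin _ (Finset.mem_range.2 (Nat.mod_lt _ hm))
  · exact Finset.mem_range.2 (Nat.mod_lt _ hm)
  · rw [key]
    have h1 : ((m - j0) % m + j0) % m = 0 := by
      rw [Nat.mod_add_mod, Nat.sub_add_cancel hj0.le, Nat.mod_self]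
    rw [h1, pow_zero, one_mul, Nat.mod_eq_of_lt hr]

/-- **Module CG-17.** -/
theorem m17 (h15 : S_cj) (h16 : S_class) : S_Flow := by
  intro k T hT m z hm hz hz1
  classical
  have hk := hT.two_le
  obtain ⟨-, -, -, -, -, h6, h7, -, -⟩ := h15 k T hT
  obtain ⟨-, -, h3⟩ := h16 k hk m hm
  have hex : ∀ r : ℕ, ∃ p : ℕ × ℕ, r ∈ range (k ^ m - 1) →
      p ∈ Rep k m ×ˢ range m ∧ (k ^ p.2 * p.1) % (k ^ m - 1) = r := by
    intro r
    by_cases hr : r ∈ range (k ^ m - 1)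
    · obtain ⟨s, hs, j, hj, h⟩ := exists_rep hk hm hr
      exact ⟨(s, j), fun _ => ⟨Finset.mem_product.2 ⟨hs, hj⟩, h⟩⟩
    · exact ⟨(0, 0), fun h => absurd h hr⟩
  choose e he using hex
  have hinj : Set.InjOn e (range (k ^ m - 1) : Set ℕ) := by
    intro r hr r' hr' h
    rw [← (he r (Finset.mem_coe.1 hr)).2, ← (he r' (Finset.mem_coe.1 hr')).2, h]
  calc ∑ r ∈ range (k ^ m - 1), z ^ len k T ((r : ℚ), (m : ℤ))
      = ∑ r ∈ range (k ^ m - 1),
          z ^ len k T ((((k ^ (e r).2 * (e r).1) % (k ^ m - 1) : ℕ) : ℚ), (m : ℤ)) :=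
        Finset.sum_congr rfl fun r hr => by rw [(he r hr).2]
    _ = ∑ p ∈ (range (k ^ m - 1)).image e,
          z ^ len k T ((((k ^ p.2 * p.1) % (k ^ m - 1) : ℕ) : ℚ), (m : ℤ)) := by
        rw [Finset.sum_image hinj]
    _ ≤ ∑ p ∈ Rep k m ×ˢ range m,
          z ^ len k T ((((k ^ p.2 * p.1) % (k ^ m - 1) : ℕ) : ℚ), (m : ℤ)) := by
        refine Finset.sum_le_sum_of_subset_of_nonneg ?_ fun _ _ _ => (pow_pos hz _).le
        intro p hp
        obtain ⟨r, hr, rfl⟩ := Finset.mem_image.1 hp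
        exact (he r hr).1
    _ ≤ ∑ p ∈ Rep k m ×ˢ range m, z ^ clen k T ((p.1 : ℚ), (m : ℤ)) := by
        refine Finset.sum_le_sum fun p _ => ?_
        rw [h6 _ _ (h3 p.1 p.2)]
        exact pow_le_pow_of_le_one hz.le hz1 (h7 _)
    _ = m * F k T m z := by
        rw [Finset.sum_product, F, Finset.mul_sum]
        refine Finset.sum_congr rfl fun r _ => ?_
        change ∑ _y ∈ range m, z ^ clen k T ((r : ℚ), (m : ℤ)) = _
        rw [Finset.sum_const, Finset.card_range, nsmul_eq_mul]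

end Pool.Agent.J6H83.CG17
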